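import Pool.Agent.P.MP_9ca318_co.BL.Expl

set_option autoImplicit false

namespace Pool.Agent.Results.MP_9ca318_co.Counter91

/-- For `r = 91` there are a dimension `d > 0` and `d + 1` pairwise disjoint colour classes of exactly
91 points in `R^d` such that no 91 pairwise disjoint rainbow sets have convex hulls with a common point. -/
theorem result :
    ∃ d : ℕ, 0 < d ∧ ∃ C : Fin (d + 1) → Finset (EuclideanSpace ℝ (Fin d)),
      Pairwise (fun i j => Disjoint (C i) (C j)) ∧ (∀ i, (C i).card = 91) ∧
      ¬ ∃ f : Fin 91 → Fin (d + 1) → EuclideanSpace ℝ (Fin d),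
        (∀ j i, f j i ∈ C i) ∧
        Function.Injective (fun p : Fin 91 × Fin (d + 1) => f p.1 p.2) ∧
        ∃ x : EuclideanSpace ℝ (Fin d), ∀ j, x ∈ convexHull ℝ (Set.range (f j)) :=
  Pool.Agent.P.MP_9ca318_co.BL.expl91

end Pool.Agent.Results.MP_9ca318_co.Counter91
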