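import Pool.Agent.P.MP_9ca318_co.Equi
import Pool.Agent.P.MP_9ca318_co.LemC
import Pool.Agent.P.MP_9ca318_co.GenCyc
import Pool.Agent.P.MP_9ca318_co.Shift
import Pool.Agent.P.MP_9ca318_co.Clus
import Pool.Agent.P.MP_9ca318_co.Pert
import Pool.Agent.P.MP_9ca318_co.Final

set_option autoImplicit false

namespace Pool.Agent.Results.MP_9ca318_co.PrimeParts

open Pool.Agent.P.MP_9ca318_co

/-- The coloured Tverberg conjecture of Barany and Larman holds when the number of parts is a
prime, in every dimension. -/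
theorem result :
    ∀ (r d : ℕ), r.Prime → ∀ (C : Fin (d + 1) → Finset (EuclideanSpace ℝ (Fin d))),
      Pairwise (fun i j => Disjoint (C i) (C j)) →
      (∀ i, r ≤ (C i).card) →
      ∃ f : Fin r → Fin (d + 1) → EuclideanSpace ℝ (Fin d),
        (∀ j i, f j i ∈ C i) ∧
        Function.Injective (fun p : Fin r × Fin (d + 1) => f p.1 p.2) ∧
        ∃ x : EuclideanSpace ℝ (Fin d), ∀ j, x ∈ convexHull ℝ (Set.range (f j)) :=
  main_of_core (core lemC genEx cyc shiftOK clus pert)

end Pool.Agent.Results.MP_9ca318_co.PrimeParts
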